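import Mathlib

/-!
# Project SF (MP_d5570f_nt), piece SF-2: Chinese remainder theorem for characters
-/

open Finset

namespace Pool.Agent.Helper94.SF

theorem exists_units {ι : Type*} [Fintype ι] [DecidableEq ι] (m : ι → ℕ) [∀ i, NeZero (m i)]
    (hc : ∀ i j, i ≠ j → Nat.Coprime (m i) (m j)) :
    ∃ u : ι → ℤ,
      (∀ i, ((u i * ∏ j ∈ Finset.univ.erase i, (m j : ℤ) : ℤ) : ZMod (m i)) = 1) ∧
      ∀ n : ℤ, ∏ i, ZMod.stdAddChar ((u i * n : ℤ) : ZMod (m i))
        = Complex.exp (2 * Real.pi * Complex.I * n / ((∏ i, m i : ℕ) : ℂ)) := by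
  classical
  -- the inverses
  let P : ι → ℕ := fun i => ∏ j ∈ Finset.univ.erase i, m j
  have hP : ∀ i, Nat.Coprime (P i) (m i) := by
    intro i
    apply Nat.Coprime.prod_left
    intro j hj
    exact hc j i (Finset.ne_of_mem_erase hj)
  let u : ι → ℤ := fun i => (((P i : ZMod (m i))⁻¹).val : ℤ)
  have hu : ∀ i, ((u i * (P i : ℤ) : ℤ) : ZMod (m i)) = 1 := by
    intro i
    have h1 := ZMod.coe_mul_inv_eq_one (n := m i) (P i) (hP i)
    have h2 : ((u i : ℤ) : ZMod (m i)) = (P i : ZMod (m i))⁻¹ := by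
      simp only [u, Int.cast_natCast]
      exact ZMod.natCast_zmod_val _
    push_cast
    rw [h2, mul_comm]
    exact h1
  have hPcast : ∀ i, (∏ j ∈ Finset.univ.erase i, (m j : ℤ)) = (P i : ℤ) := by
    intro i
    simp [P]
  refine ⟨u, ?_, ?_⟩
  · intro i
    rw [hPcast]
    exact hu i
  · intro n
    have hMpos : ∀ i, (m i : ℂ) ≠ 0 := fun i => by exact_mod_cast NeZero.ne (m i)
    have hfac : ∀ i, (∏ j, m j) = m i * P i := by
      intro i
      rw [← Finset.mul_prod_erase Finset.univ m (Finset.mem_univ i)]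
    -- the sum is 1 modulo the product
    have hdvd : ((∏ i, m i : ℕ) : ℤ) ∣ (∑ i, u i * (P i : ℤ)) - 1 := by
      push_cast
      apply Finset.prod_dvd_of_coprime
      · intro i _ j _ hij
        exact Nat.isCoprime_iff_coprime.2 (hc i j hij)
      · intro k _
        rw [← ZMod.intCast_zmod_eq_zero_iff_dvd]
        push_cast
        rw [Finset.sum_eq_single k]
        · have h := hu k
          push_cast at h
          rw [h, sub_self]
        · intro i _ hik
          have : (m k : ℤ) ∣ (P i : ℤ) := by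
            have : m k ∣ P i := Finset.dvd_prod_of_mem m
              (Finset.mem_erase.2 ⟨fun h => hik h.symm, Finset.mem_univ _⟩)
            exact_mod_cast this
          have h0 : ((P i : ℤ) : ZMod (m k)) = 0 := (ZMod.intCast_zmod_eq_zero_iff_dvd _ _).2 this
          have h0' : ((P i : ℕ) : ZMod (m k)) = 0 := by exact_mod_cast h0
          rw [h0', mul_zero]
        · intro h
          exact absurd (Finset.mem_univ _) h
    obtain ⟨t, ht⟩ := hdvd
    have hsum : (∑ i, (u i : ℂ) / (m i : ℂ)) = 1 / ((∏ i, m i : ℕ) : ℂ) + t := by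
      have hM : ((∏ i, m i : ℕ) : ℂ) ≠ 0 := by
        have : (∏ i, m i) ≠ 0 := Finset.prod_ne_zero_iff.2 fun i _ => NeZero.ne (m i)
        exact_mod_cast this
      have h1 : ∀ i, (u i : ℂ) / (m i : ℂ) = (u i : ℂ) * (P i : ℂ) / ((∏ i, m i : ℕ) : ℂ) := by
        intro i
        have hMi : ((∏ i, m i : ℕ) : ℂ) = (m i : ℂ) * (P i : ℂ) := by exact_mod_cast hfac i
        have hPi : (P i : ℂ) ≠ 0 := by
          intro h
          rw [h, mul_zero] at hMi
          exact hM hMi
        rw [hMi]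
        have := hMpos i
        field_simp
      rw [Finset.sum_congr rfl fun i _ => h1 i, ← Finset.sum_div]
      have h2 : (∑ i, (u i : ℂ) * (P i : ℂ)) = 1 + ((∏ i, m i : ℕ) : ℂ) * t := by
        have h3 : (∑ i, u i * (P i : ℤ)) = 1 + ((∏ i, m i : ℕ) : ℤ) * t := by linarith
        exact_mod_cast congrArg (Int.cast : ℤ → ℂ) h3
      rw [h2, add_div, mul_div_cancel_left₀ _ hM]
    have hterm : ∀ i, ZMod.stdAddChar ((u i * n : ℤ) : ZMod (m i))
        = Complex.exp (2 * Real.pi * Complex.I * ((u i * n : ℤ) : ℂ) / (m i : ℂ)) := by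
      intro i
      exact ZMod.stdAddChar_coe (N := m i) (u i * n)
    rw [Finset.prod_congr rfl fun i _ => hterm i, ← Complex.exp_sum]
    have h4 : (∑ i, 2 * (Real.pi : ℂ) * Complex.I * ((u i * n : ℤ) : ℂ) / (m i : ℂ))
        = 2 * Real.pi * Complex.I * n / ((∏ i, m i : ℕ) : ℂ)
          + ((n * t : ℤ) : ℂ) * (2 * Real.pi * Complex.I) := by
      have h5 : (∑ i, 2 * (Real.pi : ℂ) * Complex.I * ((u i * n : ℤ) : ℂ) / (m i : ℂ))
          = 2 * Real.pi * Complex.I * n * ∑ i, (u i : ℂ) / (m i : ℂ) := by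
        rw [Finset.mul_sum]
        refine Finset.sum_congr rfl fun i _ => ?_
        push_cast
        ring
      rw [h5, hsum]
      push_cast
      ring
    rw [h4, Complex.exp_add, Complex.exp_int_mul_two_pi_mul_I, mul_one]

end Pool.Agent.Helper94.SF
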